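import Pool.Agent.K6.H68.TR.Powers

/-!
# Almost all tuples `n_1, …, n_k`: all numbers `∏ n_i ^ x_i` with `x_i` in `ℚ̄ + ℚ̄ π + ℚ̄ e`

For all complex numbers `t_1, …, t_r` and all but `k N ^ (k - 1) (log₂ N + 1) ^ (b + k - 1)` of the
`N ^ k` tuples of integers `n_1, …, n_k ≤ N`, where `b = (r + 1) ((r + 2) (r + 1) - 1)`, the number
`e ^ z n_1 ^ x_1 ⋯ n_k ^ x_k` is not of the form `e ^ γ α_1 ^ β_1 ⋯ α_s ^ β_s` with algebraic `γ`,
`α_j ≠ 0`, `β_j` (in particular transcendental) for ALL combinations `z`, `x_i` of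
`1`, `π`, `t_1, …, t_r` with algebraic coefficients such that not all `x_i` are algebraic. For `r = 1`,
`t_1 = e` and pairs: all but `2 N (log₂ N + 1) ^ 11` of the `N ^ 2` pairs.

The proof. Let `x_0 = 1, x_1, …` be a basis of the space `V` of the combinations of `1`, `π` and the
`t_j` with algebraic coefficients, and let `d` be its dimension. The vectors `z` whose coordinates are
linear forms in `1` and logarithms of algebraic numbers and which satisfy `∑ x_a z_a = 0` form a space of
dimension at most `d (d - 1)`, by the hyperplane case of the linear subgroup theorem of Waldschmidt and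
Roy (starting files, `Pool.Agent.W254.HP`). As `V` contains `π`, one of them has algebraic coordinates
outside the index `0`; hence the coordinates `z_a`, `a ≥ 1`, of all these vectors lie, together
with `1`, in a space `W` of dimension at most `1 + (d - 1) (d (d - 1) - 1)`. If `z + ∑ x_i log n_i` is a
linear form in `1` and logarithms, then the combinations of the `log n_i` whose coefficients are the
coordinates of the `x_i` with index `a ≥ 1` are in `W`. The tuples whose
logarithms are linearly dependent modulo `W` are counted by means of Baker's theorem.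
-/

set_option autoImplicit false

namespace Pool.Agent.Results.MP_ee2255_nt.AlmostAllTuples

open Module

/-- The linear combinations, with algebraic coefficients, of `1` and of logarithms of algebraic
numbers. -/
noncomputable def LogForms : Submodule (algebraicClosure ℚ ℂ) ℂ :=
  Submodule.span (algebraicClosure ℚ ℂ) ({1} ∪ {z : ℂ | IsAlgebraic ℚ (Complex.exp z)})

/-- The numbers `e ^ z` with `z` in `LogForms`, i.e. the numbers `e ^ γ α_1 ^ β_1 ⋯ α_s ^ β_s` with
algebraic `γ`, `α_j ≠ 0`, `β_j`; all nonzero algebraic numbers are of this form. -/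
def Prods : Set ℂ := {x | ∃ z ∈ LogForms, Complex.exp z = x}

/-- The combinations of `1`, `π`, `t_1, …, t_r` with algebraic coefficients. -/
noncomputable def Exps {r : ℕ} (t : Fin r → ℂ) : Submodule (algebraicClosure ℚ ℂ) ℂ :=
  Submodule.span (algebraicClosure ℚ ℂ) ({1, ((Real.pi : ℝ) : ℂ)} ∪ Set.range t)

theorem result (r : ℕ) (t : Fin r → ℂ) (k N : ℕ) :
    ∃ B : Finset (Fin (k + 1) → ℕ),
      B.card ≤ (k + 1) * N ^ k * (Nat.log 2 N + 1) ^ ((r + 1) * ((r + 2) * (r + 1) - 1) + k) ∧
      ∀ (n : Fin (k + 1) → ℕ), (∀ i, 1 ≤ n i ∧ n i ≤ N) → n ∉ B →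
        ∀ (x : Fin (k + 1) → ℂ) (z : ℂ), (∀ i, x i ∈ Exps t) → z ∈ Exps t →
          (∃ i, Transcendental ℚ (x i)) →
          (∏ i, (n i : ℂ) ^ (x i)) * Complex.exp z ∉ Prods := by
  have hfin : FiniteDimensional (algebraicClosure ℚ ℂ) (Exps t) := Pool.Agent.K6.H68.TR.Ex_finite t
  obtain ⟨-, -, hC⟩ := Pool.Agent.K6.H68.TR.powers (Exps t)
    (Pool.Agent.K6.H68.TR.Ex_one t) (Pool.Agent.K6.H68.TR.Ex_pi t) ⊥
    ((r + 1) * ((r + 2) * (r + 1) - 1)) (by
      rw [finrank_bot]
      exact Pool.Agent.K6.H68.TR.bound_mono (m := 0) (Pool.Agent.K6.H68.TR.Ex_finrank t))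
  obtain ⟨B, hB1, hB2⟩ := hC k N
  refine ⟨B, hB1, ?_⟩
  rintro n hn hnB x z hx hz ⟨i, hi⟩ ⟨y, hy, hye⟩
  exact hi (hB2 n hn hnB x z 0 hx hz (Submodule.zero_mem _) ⟨y, hy, by rw [hye, add_zero]⟩ i)

end Pool.Agent.Results.MP_ee2255_nt.AlmostAllTuples
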