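import Pool.Agent.K6.H30.PS.Pow

/-!
# The numbers `n ^ e ^ α`, `α` algebraic, `n ^ π ^ q`, `q` rational, and `n ^ x`, `x` a polynomial in `e` or `π`

The numbers `n ^ e` and `n ^ π` are the members `α = 1`, `q = 1` of the families `n ^ (e ^ α)`, `α` algebraic,
and `n ^ (π ^ q)`, `q` rational. Let `n ≥ 2` be an integer, or any complex number `z ≠ 0, 1` (principal
powers). We show that the set `A₀` of those `α` for which `n ^ (e ^ α)` is algebraic, or more generally of
the form `e ^ γ α_1 ^ β_1 ⋯ α_s ^ β_s` with algebraic `γ`, `α_j ≠ 0`, `β_j`, is additively very sparse: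
`|B| |A| ≤ |A + B| + |B| (|B| - 1)` for all finite subsets `A` of `A₀` and all finite sets `B` of
algebraic numbers. In particular at most `2 (√N + 1) ^ r` of the `N ^ r` numbers
`n ^ e ^ (k_1 α_1 + ... + k_r α_r)`, `0 ≤ k_i < N`, are of this form, if `α_1, ..., α_r` are algebraic
numbers, linearly independent over `ℚ`. The same for `n ^ (π ^ q)`.

More generally let `t` be `e` or `π` (or any transcendental number) and let `F` be a space of complex
numbers of finite dimension `f` over the algebraic numbers, which contains `1`. The polynomials `x` in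
`t` of degree at most `N` for which `n ^ x` is of the form `e ^ x_0 α_1 ^ x_1 ⋯ α_s ^ x_s` with exponents
`x_j` in `F` (and algebraic `α_j ≠ 0`) lie in a space of dimension at most `2 f √N + C`, where `C` depends
only on `F` and `t`, and not on `n`.

The proof. Let `B` be a space with basis `b_i`, `i ≤ n`, such that the products of its basis with a basis
`f_j` of `F` are linearly independent, and `W` a space contained in `F V`, `V` the space of linear forms
in `1` and logarithms of algebraic numbers. The relations `∑ b_i w_i = 0`, `w_i ∈ W`, form a space of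
dimension at least `n dim W - dim (B W)`. If `w_i = ∑_j f_j v_ij`, they are linear relations between the
`n f` numbers `b_i f_j` with coefficients `v_ij` in `V`, and there are at most `n f (n f - 1)` independent
ones by the hyperplane case of the linear subgroup theorem of Waldschmidt and Roy (starting files
`Pool.Agent.W254.HP`). So `n dim W ≤ dim (B W) + n f (n f - 1)`. Here `W` consists of numbers `x log n`.
-/

set_option autoImplicit false

namespace Pool.Agent.Results.MP_ee2255_nt.DoubleExponentials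

open Module
open scoped Pointwise

/-- The linear combinations, with algebraic coefficients, of `1` and of logarithms of algebraic
numbers. -/
noncomputable def LogForms : Submodule (algebraicClosure ℚ ℂ) ℂ :=
  Submodule.span (algebraicClosure ℚ ℂ) ({1} ∪ {z : ℂ | IsAlgebraic ℚ (Complex.exp z)})

/-- The numbers `e ^ z` with `z` in `LogForms`, i.e. the numbers `e ^ γ α_1 ^ β_1 ⋯ α_s ^ β_s` with
algebraic `γ`, `α_j ≠ 0`, `β_j`; all nonzero algebraic numbers are of this form. -/
def Prods : Set ℂ := {x | ∃ z ∈ LogForms, Complex.exp z = x}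

/-- The numbers `e ^ z` with `z` in the span `F * LogForms` of the products, i.e. the numbers
`e ^ x_0 α_1 ^ x_1 ⋯ α_s ^ x_s` with algebraic `α_j ≠ 0` and exponents `x_j` in `F`. -/
def ProdsF (F : Submodule (algebraicClosure ℚ ℂ) ℂ) : Set ℂ :=
  {x | ∃ z ∈ F * LogForms, Complex.exp z = x}

theorem log_ne {z : ℂ} (h0 : z ≠ 0) (h1 : z ≠ 1) : Complex.log z ≠ 0 := by
  intro h
  apply h1
  rw [← Complex.exp_log h0, h, Complex.exp_zero]

theorem mem_of_mem {z x : ℂ} (h0 : z ≠ 0) (h : z ^ x ∈ Prods) : Complex.log z * x ∈ LogForms := by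
  obtain ⟨w, hw, hwe⟩ := h
  rw [Complex.cpow_def_of_ne_zero h0] at hwe
  exact Pool.Agent.HP778.mem_of_exp hw hwe.symm

/-- **Main result.** Let `z ≠ 0, 1` be a complex number, for instance an integer `n ≥ 2`.

(1) If `A`, `B` are finite sets of algebraic numbers and `z ^ (e ^ α)` is in `Prods` for all `α` in `A`,
then `|B| |A| ≤ |A + B| + |B| (|B| - 1)`.

(2) If `α_1, ..., α_r` are algebraic numbers, linearly independent over `ℚ`, then at most
`2 (√N + 1) ^ r` of the numbers `z ^ (e ^ (n_1 α_1 + ... + n_r α_r))`, `0 ≤ n_i < N`, are in `Prods`.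

(3) If `J`, `B` are finite sets of rational numbers and `z ^ (π ^ q)` is in `Prods` for all `q` in `J`,
then `|B| |J| ≤ |J + B| + |B| (|B| - 1)`.

(4) Let `t` be `e` or `π` or any transcendental number, and `F` a space of complex numbers of finite
dimension over the algebraic numbers, containing `1`. There is `C` such that for all complex numbers
`z ≠ 0, 1` and all `N` the polynomials `x` in `t` of degree at most `N` for which `z ^ x` is in `ProdsF F`
lie in a space of dimension at most `2 dim (F) √N + C`. -/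
theorem result :
    (∀ z : ℂ, z ≠ 0 → z ≠ 1 →
      (∀ A B : Finset ℂ, (∀ α ∈ A, IsAlgebraic ℚ α) → (∀ β ∈ B, IsAlgebraic ℚ β) →
        (∀ α ∈ A, z ^ (Complex.exp α) ∈ Prods) →
        B.card * A.card ≤ (A + B).card + B.card * (B.card - 1)) ∧
      (∀ (r : ℕ) (α : Fin r → ℂ), (∀ i, IsAlgebraic ℚ (α i)) → LinearIndependent ℚ α →
        ∀ (N : ℕ) (S : Finset (Fin r → ℕ)),
        (∀ n ∈ S, (∀ i, n i < N) ∧ z ^ (Complex.exp (∑ i, (n i : ℂ) * α i)) ∈ Prods) →
        (S.card : ℝ) ≤ 2 * (Real.sqrt N + 1) ^ r) ∧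
      (∀ J B : Finset ℚ, (∀ q ∈ J, z ^ ((Real.pi ^ (q : ℝ) : ℝ) : ℂ) ∈ Prods) →
        B.card * J.card ≤ (J + B).card + B.card * (B.card - 1))) ∧
    (∀ t : ℂ, (t = ((Real.exp 1 : ℝ) : ℂ) ∨ t = ((Real.pi : ℝ) : ℂ) ∨ Transcendental ℚ t) →
      ∀ F : Submodule (algebraicClosure ℚ ℂ) ℂ,
      Module.Finite (algebraicClosure ℚ ℂ) F → (1 : ℂ) ∈ F → ∃ C : ℕ, ∀ z : ℂ, z ≠ 0 → z ≠ 1 →
      ∀ N : ℕ,
      ∃ W : Submodule (algebraicClosure ℚ ℂ) ℂ, Module.Finite (algebraicClosure ℚ ℂ) W ∧
        (finrank (algebraicClosure ℚ ℂ) W : ℝ) ≤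
          2 * finrank (algebraicClosure ℚ ℂ) F * Real.sqrt N + C ∧
        ∀ x ∈ Submodule.span (algebraicClosure ℚ ℂ) {y : ℂ | ∃ j ≤ N, y = t ^ j},
          z ^ x ∈ ProdsF F → x ∈ W) := by
  refine ⟨fun z h0 h1 => ⟨?_, ?_, ?_⟩, ?_⟩
  · intro A B hA hB h
    exact Pool.Agent.K6.H30.PS.sumset_exp (log_ne h0 h1) A B hA hB
      fun α hα => mem_of_mem h0 (h α hα)
  · intro r α hα hind N S hS
    exact Pool.Agent.K6.H30.PS.box_exp (log_ne h0 h1) α hα hind N S (fun n hn => (hS n hn).1)
      (fun n hn => mem_of_mem h0 (hS n hn).2)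
  · intro J B h
    exact Pool.Agent.K6.H30.PS.sumset_rpow Real.pi_pos
      Pool.Agent.H340R2.LW.transcendental_pi (log_ne h0 h1) J B
      fun q hq => mem_of_mem h0 (h q hq)
  · intro t ht F hF h1F
    have ht' : Transcendental ℚ t := by
      rcases ht with rfl | rfl | ht
      · exact Pool.Agent.HP778.ofReal_transcendental
          Pool.Agent.H340R2.LW.transcendental_exp_one
      · exact Pool.Agent.H340R2.LW.transcendental_pi_complex
      · exact ht
    obtain ⟨C, hC⟩ := Pool.Agent.K6.H30.PS.mult_bound Pool.Agent.HP778.hyper_Lt ht' F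
    refine ⟨C, fun z h0 h1 N => ?_⟩
    have hfd : FiniteDimensional (algebraicClosure ℚ ℂ) (Pool.Agent.K6.H30.PS.polys t N) := by
      have := Submodule.finiteDimensional_of_le (Pool.Agent.K6.H30.PS.polys_le t N)
      exact this
    refine ⟨Pool.Agent.K6.H30.PS.mulIn (Pool.Agent.K6.H30.PS.polys t N) (F * LogForms)
      (Complex.log z), inferInstance, hC _ (log_ne h0 h1) N, ?_⟩
    rintro x hx ⟨w, hw, hwe⟩
    refine ⟨hx, ?_⟩
    change Complex.log z * x ∈ F * LogForms
    rw [Complex.cpow_def_of_ne_zero h0] at hwe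
    exact Pool.Agent.K6.H30.PS.mem_of_expF h1F hw hwe.symm

end Pool.Agent.Results.MP_ee2255_nt.DoubleExponentials
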