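import Pool.Agent.K6.H68.TR.Powers

/-!
# Products of powers of primes with exponents in `ℚ̄ + ℚ̄ π + ℚ̄ e`: finitely many exceptional primes

For all complex numbers `t_1, …, t_r` there is a finite set `E` of primes such that a number
`e ^ z ∏ p ^ x_p`, a finite product over primes whose exponents `x_p`, `z` are combinations of
`1`, `π`, `t_1, …, t_r` with algebraic coefficients, can be of the form
`e ^ γ α_1 ^ β_1 ⋯ α_s ^ β_s` with algebraic `γ`, `α_j ≠ 0`, `β_j` (in particular algebraic) only if
`x_p` is algebraic for every `p` outside `E`.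

The proof. Let `x_0 = 1, x_1, …` be a basis of the space `V` of the combinations of `1`, `π` and the
`t_j` with algebraic coefficients, and let `d` be its dimension. The vectors `z` whose coordinates are
linear forms in `1` and logarithms of algebraic numbers and which satisfy `∑ x_a z_a = 0` form a space of
dimension at most `d (d - 1)`, by the hyperplane case of the linear subgroup theorem of Waldschmidt and
Roy (starting files, `Pool.Agent.W254.HP`). As `V` contains `π`, one of them has algebraic coordinates
outside the index `0`; hence the coordinates `z_a`, `a ≥ 1`, of all these vectors lie, together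
with `1`, in a space `W` of dimension at most `1 + (d - 1) (d (d - 1) - 1)`. If `z + ∑ x_i log n_i` is a
linear form in `1` and logarithms, then the combinations of the `log n_i` whose coefficients are the
coordinates of the `x_i` with index `a ≥ 1` are in `W`. The combinations of logarithms
of primes which are in `W` involve only finitely many primes, by Baker's theorem.
-/

set_option autoImplicit false

namespace Pool.Agent.Results.MP_ee2255_nt.PowersOfPrimes

open Module

/-- The linear combinations, with algebraic coefficients, of `1` and of logarithms of algebraic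
numbers. -/
noncomputable def LogForms : Submodule (algebraicClosure ℚ ℂ) ℂ :=
  Submodule.span (algebraicClosure ℚ ℂ) ({1} ∪ {z : ℂ | IsAlgebraic ℚ (Complex.exp z)})

/-- The numbers `e ^ z` with `z` in `LogForms`, i.e. the numbers `e ^ γ α_1 ^ β_1 ⋯ α_s ^ β_s` with
algebraic `γ`, `α_j ≠ 0`, `β_j`; all nonzero algebraic numbers are of this form. -/
def Prods : Set ℂ := {x | ∃ z ∈ LogForms, Complex.exp z = x}

/-- The combinations of `1`, `π`, `t_1, …, t_r` with algebraic coefficients. -/
noncomputable def Exps {r : ℕ} (t : Fin r → ℂ) : Submodule (algebraicClosure ℚ ℂ) ℂ :=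
  Submodule.span (algebraicClosure ℚ ℂ) ({1, ((Real.pi : ℝ) : ℂ)} ∪ Set.range t)

theorem result (r : ℕ) (t : Fin r → ℂ) :
    ∃ E : Finset ℕ, ∀ (P : Finset ℕ) (x : ℕ → ℂ) (z : ℂ), (∀ p ∈ P, p.Prime) →
      (∀ p ∈ P, x p ∈ Exps t) → z ∈ Exps t →
      (∏ p ∈ P, (p : ℂ) ^ (x p)) * Complex.exp z ∈ Prods →
      ∀ p ∈ P, p ∉ E → IsAlgebraic ℚ (x p) := by
  have hfin : FiniteDimensional (algebraicClosure ℚ ℂ) (Exps t) := Pool.Agent.K6.H68.TR.Ex_finite t
  obtain ⟨-, ⟨E, hE1, hE3⟩, -⟩ := Pool.Agent.K6.H68.TR.powers (Exps t)
    (Pool.Agent.K6.H68.TR.Ex_one t) (Pool.Agent.K6.H68.TR.Ex_pi t) ⊥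
    ((r + 1) * ((r + 2) * (r + 1) - 1)) (by
      rw [finrank_bot]
      exact Pool.Agent.K6.H68.TR.bound_mono (m := 0) (Pool.Agent.K6.H68.TR.Ex_finrank t))
  refine ⟨E, ?_⟩
  rintro P x z hP hx hz ⟨y, hy, hye⟩
  exact hE3 P x z 0 hP hx hz (Submodule.zero_mem _) ⟨y, hy, by rw [hye, add_zero]⟩

end Pool.Agent.Results.MP_ee2255_nt.PowersOfPrimes
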