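import Pool.Agent.K6.H68.TR.Powers

/-!
# Products `∏ q_i ^ x_i` whose exponents are combinations of `1`, `π`, `e` and other numbers

For all complex numbers `t_1, …, t_r` there is a set `E` of at most `(r + 1) ((r + 2) (r + 1) - 1)`
primes such that the numbers `e ^ z q_1 ^ x_1 ⋯ q_k ^ x_k` are transcendental for all multiplicatively
independent positive rational numbers `q_i` without prime factors in `E`, all combinations `z`, `x_i`
of `1`, `π`, `t_1, …, t_r` with algebraic coefficients such that not all `x_i` are algebraic. For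
`r = 1`, `t_1 = e` these are ten primes, and `n ^ π m ^ e` is one of the numbers.

The proof. Let `x_0 = 1, x_1, …` be a basis of the space `V` of the combinations of `1`, `π` and the
`t_j` with algebraic coefficients, and let `d` be its dimension. The vectors `z` whose coordinates are
linear forms in `1` and logarithms of algebraic numbers and which satisfy `∑ x_a z_a = 0` form a space of
dimension at most `d (d - 1)`, by the hyperplane case of the linear subgroup theorem of Waldschmidt and
Roy (starting files, `Pool.Agent.W254.HP`). As `V` contains `π`, one of them has algebraic coordinates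
outside the index `0`; hence the coordinates `z_a`, `a ≥ 1`, of all these vectors lie, together
with `1`, in a space `W` of dimension at most `1 + (d - 1) (d (d - 1) - 1)`. If `z + ∑ x_i log n_i` is a
linear form in `1` and logarithms, then the combinations of the `log n_i` whose coefficients are the
coordinates of the `x_i` with index `a ≥ 1` are in `W`. By
Baker's theorem the logarithms of the primes outside a set `E` of at most `dim W - 1` primes are
linearly independent modulo `W`.
-/

set_option autoImplicit false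

namespace Pool.Agent.Results.MP_ee2255_nt.ProductsOfPowers

open Module

/-- The linear combinations, with algebraic coefficients, of `1` and of logarithms of algebraic
numbers. -/
noncomputable def LogForms : Submodule (algebraicClosure ℚ ℂ) ℂ :=
  Submodule.span (algebraicClosure ℚ ℂ) ({1} ∪ {z : ℂ | IsAlgebraic ℚ (Complex.exp z)})

/-- The numbers `e ^ z` with `z` in `LogForms`, i.e. the numbers `e ^ γ α_1 ^ β_1 ⋯ α_s ^ β_s` with
algebraic `γ`, `α_j ≠ 0`, `β_j`; all nonzero algebraic numbers are of this form. -/
def Prods : Set ℂ := {x | ∃ z ∈ LogForms, Complex.exp z = x}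

/-- The combinations of `1`, `π`, `t_1, …, t_r` with algebraic coefficients. -/
noncomputable def Exps {r : ℕ} (t : Fin r → ℂ) : Submodule (algebraicClosure ℚ ℂ) ℂ :=
  Submodule.span (algebraicClosure ℚ ℂ) ({1, ((Real.pi : ℝ) : ℂ)} ∪ Set.range t)

/-- The rational numbers `q_1, …, q_k` are multiplicatively independent. -/
def MulIndep {k : ℕ} (q : Fin k → ℚ) : Prop := ∀ m : Fin k → ℤ, ∏ i, (q i) ^ (m i) = 1 → m = 0

theorem result (r : ℕ) (t : Fin r → ℂ) :
    ∃ E : Finset ℕ, (∀ p ∈ E, p.Prime) ∧ E.card ≤ (r + 1) * ((r + 2) * (r + 1) - 1) ∧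
      ∀ (k : ℕ) (q : Fin k → ℚ) (x : Fin k → ℂ) (z : ℂ), (∀ i, 0 < q i) →
        (∀ i, ∀ p ∈ E, padicValRat p (q i) = 0) → MulIndep q → (∀ i, x i ∈ Exps t) →
        z ∈ Exps t → (∃ i, Transcendental ℚ (x i)) →
        (∏ i, (q i : ℂ) ^ (x i)) * Complex.exp z ∉ Prods := by
  have hfin : FiniteDimensional (algebraicClosure ℚ ℂ) (Exps t) := Pool.Agent.K6.H68.TR.Ex_finite t
  obtain ⟨⟨E, hE1, hE2, hE3⟩, -, -⟩ := Pool.Agent.K6.H68.TR.powers (Exps t)
    (Pool.Agent.K6.H68.TR.Ex_one t) (Pool.Agent.K6.H68.TR.Ex_pi t) ⊥
    ((r + 1) * ((r + 2) * (r + 1) - 1)) (by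
      rw [finrank_bot]
      exact Pool.Agent.K6.H68.TR.bound_mono (m := 0) (Pool.Agent.K6.H68.TR.Ex_finrank t))
  refine ⟨E, hE1, hE2, ?_⟩
  rintro k q x z hq hqE hi hx hz ⟨i, hi'⟩ ⟨y, hy, hye⟩
  exact hi' (hE3 k q x z 0 hq hqE hi hx hz (Submodule.zero_mem _)
    ⟨y, hy, by rw [hye, add_zero]⟩ i)

end Pool.Agent.Results.MP_ee2255_nt.ProductsOfPowers
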